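import Pool.Agent.Lib_helper83.KC.Defs
import Pool.Agent.Lib_helper59.Lang.Cover

/-! Auxiliary definitions for the proof (they do not occur in the final statement) and a few
basic lemmas. -/

open Complex Metric Filter Topology

namespace LangKC

variable {N n : ℕ}

/-- square of the euclidean norm -/
noncomputable def nsq (v : Fin (n + 1) → ℂ) : ℝ := ∑ i, ‖v i‖ ^ 2

/-- square of the spherical derivative of `[V 0 : ... : V n]` -/
noncomputable def E2 (V : ℂ → Fin (n + 1) → ℂ) (z : ℂ) : ℝ :=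
  (∑ i, ∑ j, ‖V z i * deriv (fun w => V w j) z - V z j * deriv (fun w => V w i) z‖ ^ 2) /
    (2 * nsq (V z) ^ 2)

lemma nsq_nonneg (v : Fin (n + 1) → ℂ) : 0 ≤ nsq v := Finset.sum_nonneg fun _ _ => by positivity

lemma nsq_pos {v : Fin (n + 1) → ℂ} (hv : v ≠ 0) : 0 < nsq v := by
  obtain ⟨i, hi⟩ := Function.ne_iff.1 hv
  have h1 : 0 < ‖v i‖ ^ 2 := by
    have : v i ≠ 0 := hi
    positivity
  exact h1.trans_le (Finset.single_le_sum (f := fun i => ‖v i‖ ^ 2)
    (fun _ _ => by positivity) (Finset.mem_univ i))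

lemma le_nsq (v : Fin (n + 1) → ℂ) (i : Fin (n + 1)) : ‖v i‖ ^ 2 ≤ nsq v :=
  Finset.single_le_sum (f := fun i => ‖v i‖ ^ 2) (fun _ _ => by positivity) (Finset.mem_univ i)

lemma E2_nonneg (V : ℂ → Fin (n + 1) → ℂ) (z : ℂ) : 0 ≤ E2 V z := by
  unfold E2
  positivity

/-- the standing hypotheses on `S` and `s`: everything is homogeneous, and the `s i` (all of
degree `e > 0`) have no common zero on the projective variety defined by `S` -/
structure Setup (S : Set (MvPolynomial (Fin (N + 1)) ℂ))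
    (s : Fin (n + 1) → MvPolynomial (Fin (N + 1)) ℂ) (e : ℕ) : Prop where
  epos : 0 < e
  homS : ∀ F ∈ S, ∃ d, F.IsHomogeneous d
  homs : ∀ i, (s i).IsHomogeneous e
  fin : ∀ x ∈ cone S, val s x = 0 → x = 0

variable {S : Set (MvPolynomial (Fin (N + 1)) ℂ)} {s : Fin (n + 1) → MvPolynomial (Fin (N + 1)) ℂ}
  {e : ℕ}

lemma Setup.smul_mem (h : Setup S s e) {x : Fin (N + 1) → ℂ} (hx : x ∈ cone S) (c : ℂ) :
    c • x ∈ cone S := by
  intro F hF
  obtain ⟨d, hd⟩ := h.homS F hF
  rw [LangFC.eval_smul_homog hd, hx F hF, mul_zero]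

lemma Setup.val_smul (h : Setup S s e) (x : Fin (N + 1) → ℂ) (c : ℂ) :
    val s (c • x) = c ^ e • val s x := by
  funext i
  simp only [val, Pi.smul_apply, smul_eq_mul]
  exact LangFC.eval_smul_homog (h.homs i) c x

lemma isClosed_cone (S : Set (MvPolynomial (Fin (N + 1)) ℂ)) : IsClosed (cone S) := by
  have : cone S = ⋂ F ∈ S, {v | MvPolynomial.eval v F = 0} := by
    ext v; simp [cone]
  rw [this]
  exact isClosed_biInter fun F _ => isClosed_eq (MvPolynomial.continuous_eval F) continuous_const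

lemma continuous_val (s : Fin (n + 1) → MvPolynomial (Fin (N + 1)) ℂ) : Continuous (val s) :=
  continuous_pi fun i => MvPolynomial.continuous_eval (s i)

lemma differentiable_eval {k : ℕ} (F : MvPolynomial (Fin k) ℂ) :
    Differentiable ℂ (fun x : Fin k → ℂ => MvPolynomial.eval x F) := by
  induction F using MvPolynomial.induction_on with
  | C a => simp only [MvPolynomial.eval_C]; exact differentiable_const a
  | add p q hp hq =>
    simp only [map_add]
    exact hp.add hq
  | mul_X p i hp =>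
    simp only [map_mul, MvPolynomial.eval_X]
    exact hp.mul (differentiable_apply i)

lemma differentiable_val (s : Fin (n + 1) → MvPolynomial (Fin (N + 1)) ℂ) (i : Fin (n + 1)) :
    Differentiable ℂ (fun x : Fin (N + 1) → ℂ => val s x i) := differentiable_eval (s i)

/-- composition of the polynomials `s i` with a curve -/
lemma differentiableOn_val (s : Fin (n + 1) → MvPolynomial (Fin (N + 1)) ℂ)
    {x : ℂ → Fin (N + 1) → ℂ} {U : Set ℂ} (hx : ∀ j, DifferentiableOn ℂ (fun z => x z j) U)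
    (i : Fin (n + 1)) : DifferentiableOn ℂ (fun z => val s (x z) i) U :=
  (differentiable_val s i).comp_differentiableOn (differentiableOn_pi.2 hx)

/-- the ring of exponential sums with nonnegative frequencies -/
abbrev RS := AddMonoidAlgebra ℂ NNReal

/-- value of an exponential sum at `z`: the monomial with exponent `μ` is `exp (I μ z)` -/
noncomputable def ev (z : ℂ) : RS →ₐ[ℂ] ℂ :=
  AddMonoidAlgebra.lift ℂ ℂ NNReal
    { toFun := fun μ => Complex.exp (Complex.I * ((Multiplicative.toAdd μ : NNReal) : ℝ) * z)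
      map_one' := by simp
      map_mul' := by
        intro a b
        simp only [toAdd_mul]
        rw [← Complex.exp_add]
        congr 1
        push_cast
        ring }

/-- constant term -/
noncomputable def ct : RS →ₐ[ℂ] ℂ :=
  AddMonoidAlgebra.lift ℂ ℂ NNReal
    { toFun := fun μ => if (Multiplicative.toAdd μ : NNReal) = 0 then 1 else 0
      map_one' := by simp
      map_mul' := by
        intro a b
        simp only [toAdd_mul, add_eq_zero]
        by_cases h1 : (Multiplicative.toAdd a : NNReal) = 0 <;>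
          by_cases h2 : (Multiplicative.toAdd b : NNReal) = 0 <;> simp [h1, h2] }

lemma ev_single (z : ℂ) (μ : NNReal) (a : ℂ) :
    ev z (AddMonoidAlgebra.single μ a) = a * Complex.exp (Complex.I * (μ : ℝ) * z) := by
  simp [ev]

lemma ct_single (μ : NNReal) (a : ℂ) :
    ct (AddMonoidAlgebra.single μ a) = if μ = 0 then a else 0 := by
  simp [ct]

lemma ev_apply (z : ℂ) (f : RS) :
    ev z f = f.coeff.sum fun μ a => a * Complex.exp (Complex.I * (μ : ℝ) * z) := by
  simp [ev, AddMonoidAlgebra.lift_apply]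

lemma ct_apply (f : RS) : ct f = f.coeff 0 := by
  classical
  rw [ct, AddMonoidAlgebra.lift_apply]
  simp only [Finsupp.sum, MonoidHom.coe_mk, OneHom.coe_mk, toAdd_ofAdd]
  simp
  exact fun h => h.symm

lemma RS_mul_coeff_ne {f g : RS} {μ : NNReal} (h : (f * g).coeff μ ≠ 0) :
    ∃ a b, f.coeff a ≠ 0 ∧ g.coeff b ≠ 0 ∧ a + b = μ := by
  classical
  have h1 := AddMonoidAlgebra.support_coeff_mul_subset f g (Finsupp.mem_support_iff.2 h)
  obtain ⟨a, ha, b, hb, hab⟩ := Finset.mem_add.1 h1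
  exact ⟨a, b, Finsupp.mem_support_iff.1 ha, Finsupp.mem_support_iff.1 hb, hab⟩

/-- the ideal of exponential sums all of whose frequencies are at least `M` -/
def Jd (M : NNReal) : Ideal RS where
  carrier := {f | ∀ μ, f.coeff μ ≠ 0 → M ≤ μ}
  zero_mem' := by
    intro μ h
    simp at h
  add_mem' := by
    intro f g hf hg μ h
    by_cases h1 : f.coeff μ = 0
    · apply hg μ
      intro h2
      apply h
      simp [h1, h2]
    · exact hf μ h1
  smul_mem' := by
    intro c f hf μ h
    obtain ⟨a, b, -, hb, hab⟩ := RS_mul_coeff_ne h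
    rw [← hab]
    exact (hf b hb).trans le_add_self

lemma mem_Jd {M : NNReal} {f : RS} : f ∈ Jd M ↔ ∀ μ, f.coeff μ ≠ 0 → M ≤ μ := Iff.rfl

lemma Jd_zero : Jd 0 = ⊤ := by
  ext f
  simp [mem_Jd]

lemma Jd_mono {a b : NNReal} (h : a ≤ b) : Jd b ≤ Jd a := fun _ hf μ hμ => h.trans (hf μ hμ)

lemma Jd_mul {a b : NNReal} {f g : RS} (hf : f ∈ Jd a) (hg : g ∈ Jd b) : f * g ∈ Jd (a + b) := by
  intro μ h
  obtain ⟨x, y, hx, hy, hxy⟩ := RS_mul_coeff_ne h
  rw [← hxy]
  exact add_le_add (hf x hx) (hg y hy)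

/-- subtracting the constant term -/
lemma sub_ct_mem (f : RS) : ∃ δ : NNReal, 0 < δ ∧ f - algebraMap ℂ RS (ct f) ∈ Jd δ := by
  classical
  set g := f - algebraMap ℂ RS (ct f) with hg
  have hg0 : g.coeff 0 = 0 := by
    rw [← ct_apply, hg, map_sub, AlgHom.commutes]
    simp
  by_cases hne : g.coeff.support.Nonempty
  · obtain ⟨δ, hδ, hmin⟩ := g.coeff.support.exists_min_image id hne
    refine ⟨δ, ?_, fun μ hμ => hmin μ (Finsupp.mem_support_iff.2 hμ)⟩
    rw [pos_iff_ne_zero]
    rintro rfl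
    exact (Finsupp.mem_support_iff.1 hδ) hg0
  · refine ⟨1, one_pos, fun μ hμ => ?_⟩
    exact absurd ⟨μ, Finsupp.mem_support_iff.2 hμ⟩ hne

/-- growth of exponential sums in the upper half plane -/
lemma ev_bound {M : NNReal} {f : RS} (hf : f ∈ Jd M) :
    ∃ C : ℝ, 0 ≤ C ∧ ∀ z : ℂ, 0 ≤ z.im → ‖ev z f‖ ≤ C * Real.exp (-(M : ℝ) * z.im) := by
  refine ⟨∑ μ ∈ f.coeff.support, ‖f.coeff μ‖, Finset.sum_nonneg fun _ _ => norm_nonneg _,
    fun z hz => ?_⟩
  rw [ev_apply, Finsupp.sum, Finset.sum_mul]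
  refine (norm_sum_le _ _).trans (Finset.sum_le_sum fun μ hμ => ?_)
  rw [norm_mul]
  apply mul_le_mul_of_nonneg_left _ (norm_nonneg _)
  rw [Complex.norm_exp]
  apply Real.exp_le_exp.2
  have h1 : (Complex.I * ((μ : ℝ) : ℂ) * z).re = -(μ : ℝ) * z.im := by
    simp
  rw [h1]
  have h2 : (M : ℝ) ≤ μ := by
    exact_mod_cast hf μ (Finsupp.mem_support_iff.1 hμ)
  nlinarith

/-- division by a monomial -/
lemma exists_shift {M : NNReal} {f : RS} (hf : f ∈ Jd M) :
    ∃ g : RS, f = AddMonoidAlgebra.single M 1 * g := by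
  classical
  refine ⟨∑ μ ∈ f.coeff.support, AddMonoidAlgebra.single (μ - M) (f.coeff μ), ?_⟩
  rw [Finset.mul_sum]
  have h1 : f = ∑ μ ∈ f.coeff.support, AddMonoidAlgebra.single μ (f.coeff μ) := by
    have := AddMonoidAlgebra.sum_coeff_single f
    rw [Finsupp.sum] at this
    exact this.symm
  conv_lhs => rw [h1]
  apply Finset.sum_congr rfl
  intro μ hμ
  rw [AddMonoidAlgebra.single_mul_single, one_mul]
  congr 1
  exact (add_tsub_cancel_of_le (hf μ (Finsupp.mem_support_iff.1 hμ))).symm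

end LangKC
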