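import Pool.Agent.Lib_helper59.Lang.Notions

/-! Definitions for the theorem on Kummer covers along finite morphisms (MP_45e720_ag).
Holomorphic maps to projective space (`LangFC.IsHolo`) are those of the earlier hand-in. -/

open Complex Metric Filter Topology

namespace LangKC

open LangFC (IsHolo)

/-- complex projective space of dimension `n` -/
abbrev PS (n : ℕ) := Projectivization ℂ (Fin (n + 1) → ℂ)

/-- The affine cone of common zeros of the homogeneous polynomials of `S`. A point of projective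
space lies in the projective variety `X` defined by `S` if its homogeneous coordinates are in
this cone. -/
def cone {N : ℕ} (S : Set (MvPolynomial (Fin (N + 1)) ℂ)) : Set (Fin (N + 1) → ℂ) :=
  {x | ∀ F ∈ S, MvPolynomial.eval x F = 0}

/-- the values of the polynomials `s 0, ..., s n` at `x` -/
noncomputable def val {N n : ℕ} (s : Fin (n + 1) → MvPolynomial (Fin (N + 1)) ℂ) (x : Fin (N + 1) → ℂ) :
    Fin (n + 1) → ℂ := fun i => MvPolynomial.eval x (s i)

/-- The Kummer cover of order `m` of the projective variety `X` defined by `S` along the divisors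
`s i = 0`: all `([x], [u])` with `[x] ∈ X` and `[s 0 (x) : ... : s n (x)] = [u 0 ^ m : ... : u n ^ m]`
(when the `s i` have no common zero on `X`). -/
def kummer {N n : ℕ} (m : ℕ) (S : Set (MvPolynomial (Fin (N + 1)) ℂ))
    (s : Fin (n + 1) → MvPolynomial (Fin (N + 1)) ℂ) : Set (PS N × PS n) :=
  {p | p.1.rep ∈ cone S ∧
    ∀ i j, val s p.1.rep i * p.2.rep j ^ m = val s p.1.rep j * p.2.rep i ^ m}

variable {N n : ℕ}

/-- Brody hyperbolicity: every holomorphic map from the plane to `Z` is constant. -/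
def BrodyHyperbolic (Z : Set (PS N × PS n)) : Prop :=
  ∀ (φ : ℂ → PS N) (ψ : ℂ → PS n), IsHolo φ → IsHolo ψ → (∀ z, (φ z, ψ z) ∈ Z) →
    ∀ z z', (φ z, ψ z) = (φ z', ψ z')

/-- Every holomorphic map from a complex torus `V/Λ` to `Z` is constant (such maps are the same
as `Λ`-periodic holomorphic maps on `V`); `V` is any finite-dimensional complex normed space and
`Λ` any lattice of full rank. -/
def NoTorusMaps (Z : Set (PS N × PS n)) : Prop :=
  ∀ (V : Type) [NormedAddCommGroup V] [NormedSpace ℂ V] [FiniteDimensional ℂ V]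
    (Λ : Submodule ℤ V) [DiscreteTopology Λ] [IsZLattice ℝ Λ] (φ : V → PS N) (ψ : V → PS n),
    IsHolo φ → IsHolo ψ → (∀ z, (φ z, ψ z) ∈ Z) →
    (∀ l ∈ Λ, ∀ z, (φ (z + l), ψ (z + l)) = (φ z, ψ z)) → ∀ z z', (φ z, ψ z) = (φ z', ψ z')

/-- Every polynomially parametrised curve in `Z` is constant. -/
def NoRationalCurves (Z : Set (PS N × PS n)) : Prop :=
  ∀ (P : Fin (N + 1) → Polynomial ℂ) (Q : Fin (n + 1) → Polynomial ℂ),
    (∀ z : ℂ, ∀ (h : (fun i => (P i).eval z) ≠ 0) (k : (fun i => (Q i).eval z) ≠ 0),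
      (Projectivization.mk ℂ _ h, Projectivization.mk ℂ _ k) ∈ Z) →
    ∀ z z' : ℂ, ∀ (h : (fun i => (P i).eval z) ≠ 0) (k : (fun i => (Q i).eval z) ≠ 0)
      (h' : (fun i => (P i).eval z') ≠ 0) (k' : (fun i => (Q i).eval z') ≠ 0),
      (Projectivization.mk ℂ _ h, Projectivization.mk ℂ _ k) =
        (Projectivization.mk ℂ _ h', Projectivization.mk ℂ _ k')

/-- The holomorphic map `φ` is ramified to order at least `m` over the divisor `G = 0`: in terms
of local homogeneous coordinates `h` of `φ`, all derivatives of order less than `m` of the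
function `G (h z)` vanish at each of its zeros `a`. -/
def RamifiedAlong (m : ℕ) (G : MvPolynomial (Fin (N + 1)) ℂ) (φ : ℂ → PS N) : Prop :=
  ∀ (a : ℂ) (h : ℂ → Fin (N + 1) → ℂ), (∀ᶠ z in 𝓝 a, DifferentiableAt ℂ h z) →
    (∀ᶠ z in 𝓝 a, ∃ hz : h z ≠ 0, φ z = Projectivization.mk ℂ (h z) hz) →
    MvPolynomial.eval (h a) G = 0 →
    ∀ k < m, iteratedDeriv k (fun z => MvPolynomial.eval (h z) G) a = 0

/-- Hyperbolicity of the orbifold `(X, (1 - 1/m) ∑ (s i = 0))`: every holomorphic map from the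
plane to `X` that is ramified to order at least `m` over all the divisors `s i = 0` is constant. -/
def OrbifoldHyperbolic (m : ℕ) (S : Set (MvPolynomial (Fin (N + 1)) ℂ))
    (s : Fin (n + 1) → MvPolynomial (Fin (N + 1)) ℂ) : Prop :=
  ∀ φ : ℂ → PS N, IsHolo φ → (∀ z, (φ z).rep ∈ cone S) → (∀ i, RamifiedAlong m (s i) φ) →
    ∀ z z', φ z = φ z'

/-- Hyperbolicity of all strata: every holomorphic map from the plane to `X` that for each `i`
either omits the divisor `s i = 0` or is contained in it is constant. -/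
def StrataHyperbolic (S : Set (MvPolynomial (Fin (N + 1)) ℂ))
    (s : Fin (n + 1) → MvPolynomial (Fin (N + 1)) ℂ) : Prop :=
  ∀ φ : ℂ → PS N, IsHolo φ → (∀ z, (φ z).rep ∈ cone S) →
    (∀ i, (∀ z, val s (φ z).rep i = 0) ∨ ∀ z, val s (φ z).rep i ≠ 0) → ∀ z z', φ z = φ z'

/-- `X` contains a toric curve: a rational curve `t ↦ [P(t)]` in `X` on which every `s i` is a
constant multiple `c i` of a power `t ^ a i`, the map to projective space given by the `s i` being
nonconstant on it. -/
def ToricCurve (S : Set (MvPolynomial (Fin (N + 1)) ℂ))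
    (s : Fin (n + 1) → MvPolynomial (Fin (N + 1)) ℂ) : Prop :=
  ∃ (P : Fin (N + 1) → Polynomial ℂ) (c : Fin (n + 1) → ℂ) (a : Fin (n + 1) → ℕ),
    (∀ F ∈ S, MvPolynomial.aeval P F = 0) ∧
    (∀ i, MvPolynomial.aeval P (s i) = Polynomial.C (c i) * Polynomial.X ^ a i) ∧
    ∃ i j, c i ≠ 0 ∧ c j ≠ 0 ∧ a i ≠ a j

end LangKC
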