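import Pool.Agent.Lib_helper83.KC.Base

/-! Entire curves in the strata of the divisor `s 0 * ... * s n = 0`. -/

open Complex Metric Filter Topology

namespace LangKC

variable {N n : ℕ} {S : Set (MvPolynomial (Fin (N + 1)) ℂ)}
  {s : Fin (n + 1) → MvPolynomial (Fin (N + 1)) ℂ} {e : ℕ}

lemma Setup.rep_eq (v : Fin (N + 1) → ℂ) (hv : v ≠ 0) :
    ∃ a : ℂ, a ≠ 0 ∧ (Projectivization.mk ℂ v hv).rep = a • v := by
  obtain ⟨a, ha⟩ := Projectivization.exists_smul_eq_mk_rep ℂ v hv
  exact ⟨a, a.ne_zero, ha.symm⟩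

theorem orb_strata (h : Setup S s e) {m : ℕ} (ho : OrbifoldHyperbolic m S s) :
    StrataHyperbolic S s := by
  intro φ h1 h2 h3
  refine ho φ h1 h2 fun i a g hg1 hg2 hg3 k hk => ?_
  -- the value at the representative vanishes at `a`
  have hkey : ∀ z, (∃ hz : g z ≠ 0, φ z = Projectivization.mk ℂ (g z) hz) →
      (val s (φ z).rep i = 0 ↔ MvPolynomial.eval (g z) (s i) = 0) := by
    rintro z ⟨hz, hφ⟩
    obtain ⟨c, hc, hrep⟩ := Setup.rep_eq (g z) hz
    rw [hφ, hrep, h.val_smul]
    simp only [Pi.smul_apply, smul_eq_mul, mul_eq_zero, pow_eq_zero_iff', ne_eq]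
    constructor
    · rintro (⟨h4, -⟩ | h4)
      · exact absurd h4 hc
      · exact h4
    · intro h4
      exact Or.inr h4
  rcases h3 i with h4 | h4
  · have h5 : (fun z => MvPolynomial.eval (g z) (s i)) =ᶠ[𝓝 a] fun _ => 0 := by
      filter_upwards [hg2] with z hz
      exact (hkey z hz).1 (h4 z)
    rw [h5.iteratedDeriv_eq]
    simp
  · exact absurd ((hkey a hg2.self_of_nhds).2 hg3) (h4 a)

theorem strata_toric (h : Setup S s e) (hs : StrataHyperbolic S s) : ¬ ToricCurve S s := by
  rintro ⟨P, c, a, hP, hv, i, j, hi, hj, hij⟩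
  -- the curve
  set g : ℂ → Fin (N + 1) → ℂ := fun z l => (P l).eval (Complex.exp z) with hg
  have hev : ∀ (t : ℂ) (F : MvPolynomial (Fin (N + 1)) ℂ),
      MvPolynomial.eval (fun l => (P l).eval t) F = (MvPolynomial.aeval P F).eval t := by
    intro t F
    have h1 : (Polynomial.evalRingHom t).comp (MvPolynomial.aeval P).toRingHom =
        MvPolynomial.eval fun l => (P l).eval t := by
      apply MvPolynomial.ringHom_ext
      · intro b
        simp
      · intro l
        simp
    rw [← h1]
    rfl
  have hcone : ∀ z, g z ∈ cone S := by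
    intro z F hF
    rw [hg, hev, hP F hF, Polynomial.eval_zero]
  have hval : ∀ z k, val s (g z) k = c k * Complex.exp z ^ a k := by
    intro z k
    have h1 : val s (g z) k = MvPolynomial.eval (g z) (s k) := rfl
    rw [h1, hg, hev, hv k]
    simp
  have hgne : ∀ z, g z ≠ 0 := by
    intro z hz
    have h1 := hval z i
    rw [hz] at h1
    have h2 : val s (0 : Fin (N + 1) → ℂ) i = 0 := by
      have := congrFun (h.val_smul 0 0) i
      simp only [smul_zero, Pi.smul_apply, smul_eq_mul] at this
      rw [this, zero_pow h.epos.ne', zero_mul]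
    rw [h2] at h1
    exact mul_ne_zero hi (pow_ne_zero _ (Complex.exp_ne_zero z)) h1.symm
  have h1 := hs (fun z => Projectivization.mk ℂ (g z) (hgne z)) ?_ ?_ ?_ 0 1
  · rw [Projectivization.mk_eq_mk_iff'] at h1
    obtain ⟨l, hl⟩ := h1
    have h2 : val s (g 0) = l ^ e • val s (g 1) := by
      rw [← hl, h.val_smul]
    have h3 := congrFun h2 i
    have h4 := congrFun h2 j
    simp only [Pi.smul_apply, smul_eq_mul, hval, Complex.exp_zero, one_pow, mul_one] at h3 h4
    have h5 : l ^ e * Complex.exp 1 ^ a i = 1 := mul_left_cancel₀ hi (by linear_combination -h3)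
    have h6 : l ^ e * Complex.exp 1 ^ a j = 1 := mul_left_cancel₀ hj (by linear_combination -h4)
    have h7 : Complex.exp 1 ^ a i = Complex.exp 1 ^ a j := by
      have hl0 : l ^ e ≠ 0 := by
        intro h0
        rw [h0, zero_mul] at h5
        exact zero_ne_one h5
      exact mul_left_cancel₀ hl0 (h5.trans h6.symm)
    have h8 : Real.exp 1 ^ a i = Real.exp 1 ^ a j := by
      have h9 : ((Real.exp 1 : ℝ) : ℂ) = Complex.exp 1 := by simp
      rw [← h9] at h7
      exact_mod_cast h7
    exact hij (pow_right_injective₀ (Real.exp_pos 1) (by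
      intro h0
      have := Real.add_one_lt_exp (one_ne_zero)
      linarith) h8)
  · intro z₀
    refine ⟨g, Eventually.of_forall fun z => ?_, Eventually.of_forall fun z => ⟨hgne z, rfl⟩⟩
    rw [differentiableAt_pi]
    intro l
    exact ((P l).differentiable.differentiableAt).comp z Complex.differentiable_exp.differentiableAt
  · intro z
    obtain ⟨b, hb, hrep⟩ := Setup.rep_eq (g z) (hgne z)
    rw [hrep]
    exact h.smul_mem (hcone z) b
  · intro k
    by_cases hk : c k = 0
    · left
      intro z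
      obtain ⟨b, hb, hrep⟩ := Setup.rep_eq (g z) (hgne z)
      rw [hrep, h.val_smul]
      simp [hval, hk]
    · right
      intro z
      obtain ⟨b, hb, hrep⟩ := Setup.rep_eq (g z) (hgne z)
      rw [hrep, h.val_smul]
      simp only [Pi.smul_apply, smul_eq_mul, hval]
      exact mul_ne_zero (pow_ne_zero _ hb)
        (mul_ne_zero hk (pow_ne_zero _ (Complex.exp_ne_zero z)))

end LangKC
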